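import Pool.Agent.Y196.JX.Class2

/-!
# MP_e3ece1_pr: the laws for which one of the walks always mixes fast

`H(μ, a)` is the entropy rate of the walk `X → a X + b` with steps of law `μ`; it is at most
`log a`. The assertion of Q1 holds for a step law `μ` if and only if `H(μ, 2) = log 2` or
`H(μ, 3) = log 3`. More generally, for a finite family of pairs (base `a ≥ 2`, step law `μ`), for
all large moduli `q` coprime to the bases (and to any given number) some walk of the family is
mixed from the entropic time on, if and only if `H(μ, a) = log a` for some pair. If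
`H(μ, a) = log a` the walk has a cutoff with bounded window at the time `log q / log a`, uniformly
for all `q` coprime to `a`; this is the case if and only if, for some `J`, every fraction
`c / a ^ J` with `c` not divisible by `a` has a zero of the characteristic function of `μ` among
its multiples `c / a ^ j`, `1 ≤ j ≤ J`.

Sketch of the proofs. If the characteristic function of `μ` has no zero at the points `c / a ^ k`,
`k ≥ 1`, for some integer `c ≠ 0`, then the digits of `X_n` in the base `a ^ m` are all correlated
with the same nontrivial character, and the inequality of Gibbs for the product of tilted uniform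
laws shows `H(μ, a) < log a`; and there are infinitely many moduli, products of numbers
`(a ^ m - 1) / (a - 1)` over the bases, modulo which no walk of the family has started to mix at
the time `C log q log log q` (exponential sums over the orbits of the bases: first and second
moments). Otherwise, by compactness, the zeros occur within `J` steps; hence the law of `X_n`
has atoms of mass at most `a ^ J / a ^ n`, so `H(μ, a) = log a`, its Fourier coefficients at
`c / q` have a bounded sum of squares, and the part of the sum over `c ≠ 0` is small: either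
`a ^ s c / q` is far from the integers, where the last steps give decay, or it is close to an
integer, and one factor is close to a zero.
-/

set_option autoImplicit false

namespace Pool.Agent.Results.MP_e3ece1_pr.Classification

open H942JM Pool.Agent.Y196.JX

/-- **Main theorem.** (1) The assertion of Q1 holds for the step law `μ` if and only if
`H(μ, 2) = log 2` or `H(μ, 3) = log 3`. (2) The same for finite families of walks. (3) If
`H(μ, a) = log a` there is a cutoff with bounded window. (4) The criterion in terms of zeros of
the characteristic function. -/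
theorem result :
    (∀ μ : ℤ →₀ ℝ, IsStepLaw μ →
      ((∀ ε : ℝ, 0 < ε → ∃ q₀ : ℕ, ∀ q : ℕ, q₀ ≤ q → Nat.gcd q 6 = 1 →
        MixesFast μ 2 ε q ∨ MixesFast μ 3 ε q) ↔
      entropyRate μ 2 = Real.log 2 ∨ entropyRate μ 3 = Real.log 3)) ∧
    (∀ (S : Finset (ℕ × (ℤ →₀ ℝ))) (N : ℕ), 0 < N → (∀ s ∈ S, 2 ≤ s.1 ∧ IsStepLaw s.2) →
      ((∀ ε : ℝ, 0 < ε → ∃ q₀ : ℕ, ∀ q : ℕ, q₀ ≤ q → Nat.Coprime q N →
        (∀ s ∈ S, Nat.Coprime q s.1) → ∃ s ∈ S, MixesFast s.2 s.1 ε q) ↔
      ∃ s ∈ S, entropyRate s.2 s.1 = Real.log s.1)) ∧
    (∀ (μ : ℤ →₀ ℝ) (a : ℕ), IsStepLaw μ → 2 ≤ a → entropyRate μ a = Real.log a →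
      ∀ δ : ℝ, 0 < δ → ∃ T : ℕ, ∀ q n : ℕ, Nat.Coprime q a →
        (q * a ^ T ≤ a ^ n → tvDist μ a q n ≤ δ) ∧
        (a ^ n * a ^ T ≤ q → 1 - δ ≤ tvDist μ a q n)) ∧
    (∀ (μ : ℤ →₀ ℝ) (a : ℕ), IsStepLaw μ → 2 ≤ a →
      (entropyRate μ a = Real.log a ↔ ∃ J : ℕ, ∀ c : ℤ, ¬ ((a : ℤ) ∣ c) →
        ∃ k : ℕ, k < J ∧ chf μ ((c : ℝ) / (a : ℝ) ^ (k + 1)) = 0)) :=
  ⟨fun _ hμ => joint_iff' hμ, fun S N hN hS => family_iff' S N hN hS,
    fun _ _ hμ ha h _ hδ => window hμ ha h hδ, fun _ _ hμ ha => finite_criterion hμ ha⟩

end Pool.Agent.Results.MP_e3ece1_pr.Classification
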