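import Pool.Agent.Y196.JX.Slow

/-!
# MP_e3ece1_pr: finite families of affine walks that are slow for the same moduli

Let `S` be any finite set of pairs (base `a ≥ 2`, step law `μ`) such that some nonzero Fourier
coefficient of the self-similar measure of the pair (the law of `∑ b_k / a ^ k`) is not zero. Then
for some `C > 0` there are, for all `δ > 0`, infinitely many moduli `q`, coprime to any given
number and to all the bases, modulo which **none** of the walks has started to mix at any time
`n ≤ C log q log log q`. In particular the assertion of Q1 fails for every step law that is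
nondegenerate in this sense for the bases 2 and 3, with every `ε < 1`.

Sketch of the proof. Let `q` be the product of the numbers `(a ^ m - 1) / (a - 1)` over the bases,
with `m - 1` divisible by the factorial of the number to which `q` is to be coprime. For a base `a`
and a suitable multiple `c` of `a - 1` the exponential sums over the frequencies
`c a ^ i / (a ^ m - 1)` of the difference of two independent copies of the walk have, after `L m`
steps, expectation at least `m κ ^ (2 L)` and variance at most a constant times `L m`; under the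
uniform distribution the expectation is zero and the variance is `m`.
-/

set_option autoImplicit false

namespace Pool.Agent.Results.MP_e3ece1_pr.FiniteFamilies

open H942JM Pool.Agent.Y196.JX

/-- **Main theorem.** (1) For every finite set of pairs (base, law) which are nondegenerate there
are infinitely many moduli for which none of the walks has started to mix at the time
`C log q log log q`. (2) The assertion of Q1 fails for every step law that is nondegenerate for the
bases 2 and 3. (3) The assertion of Q1 is false. -/
theorem result :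
    (∀ (S : Finset (ℕ × (ℤ →₀ ℝ))) (N : ℕ), 0 < N →
      (∀ s ∈ S, 2 ≤ s.1 ∧ IsStepLaw s.2 ∧ Nondegenerate s.2 s.1) →
      ∃ C : ℝ, 0 < C ∧ ∀ δ : ℝ, 0 < δ → ∀ Q : ℕ, ∃ q : ℕ, Q ≤ q ∧ Nat.Coprime q N ∧
        (∀ s ∈ S, Nat.Coprime q s.1) ∧
        ∀ s ∈ S, ∀ n : ℕ, (n : ℝ) ≤ C * (Real.log q * Real.log (Real.log q)) →
          1 - δ ≤ tvDist s.2 s.1 q n) ∧
    (∀ μ : ℤ →₀ ℝ, IsStepLaw μ → Nondegenerate μ 2 → Nondegenerate μ 3 →
      ∀ ε : ℝ, 0 < ε → ε < 1 → ∀ Q : ℕ, ∃ q : ℕ, Q ≤ q ∧ Nat.gcd q 6 = 1 ∧
        ¬ MixesFast μ 2 ε q ∧ ¬ MixesFast μ 3 ε q) ∧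
    ¬ JointMixing := by
  refine ⟨slowFamily, fun μ hμ h2 h3 ε hε hε1 Q => not_joint hμ h2 h3 hε hε1 Q, ?_⟩
  intro h
  obtain ⟨q₀, hq₀⟩ := h mu0 mu0_isStepLaw (1 / 2) (by norm_num)
  obtain ⟨q, hq, hgcd, hn2, hn3⟩ := not_joint mu0_isStepLaw (mu0_nondegenerate 2)
    (mu0_nondegenerate 3) (ε := 1 / 2) (by norm_num) (by norm_num) q₀
  rcases hq₀ q hq hgcd with h | h
  · exact hn2 h
  · exact hn3 h

end Pool.Agent.Results.MP_e3ece1_pr.FiniteFamilies
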